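import Mathlib
import Pool.Agent.TH767.B.PowB

/-!
In ZFC the class of completely characterizable cardinals is closed under `κ ↦ 2 ^ κ`.
-/

namespace Pool.Agent.Results.MP_cad5e4_lc.PowerSet

open Pool.Agent.TH767.B Cardinal

theorem result : ∀ κ : Cardinal.{0}, Ch κ → Ch (2 ^ κ) :=
  fun _ h => ch_two_pow h

end Pool.Agent.Results.MP_cad5e4_lc.PowerSet
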